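import Mathlib
import Pool.Agent.H324R3.StAll

set_option autoImplicit false

/-!
# Patterned Room squares

A patterned Room square of side `n` (`n` odd) exists exactly when `n` is not `3`, `5` or `9`.
-/

namespace Pool.Agent.Results.MP_b14753_co.Patterned

open Finset Pool.Agent.H324R3

/-- `x ↦ x + 1` on the symbols `ℤ_n ∪ {∞}` (`none` is the symbol `∞`, which is fixed) -/
def shift {n : ℕ} (x : Option (ZMod n)) : Option (ZMod n) := x.map (fun z => z + 1)

/-- A Room square of side `n` on the symbols `ℤ_n ∪ {∞}`, rows and columns indexed by `ℤ_n`: each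
cell is empty or holds a pair of distinct symbols, each symbol occurs exactly once in each row and
in each column, and each pair of distinct symbols occurs in exactly one cell. -/
structure IsRoomSquare (n : ℕ) (R : ZMod n → ZMod n → Finset (Option (ZMod n))) : Prop where
  cell : ∀ r s, R r s = ∅ ∨ (R r s).card = 2
  row : ∀ r x, ∃! s, x ∈ R r s
  col : ∀ s x, ∃! r, x ∈ R r s
  pair : ∀ x y, x ≠ y → ∃! c : ZMod n × ZMod n, R c.1 c.2 = {x, y}

/-- A patterned Room square of side `n = 2 m + 1`: a Room square which is cyclic (if the cell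
`(r, s)` holds `{x, y}` then the cell `(r + 1, s + 1)` holds `{x + 1, y + 1}`) and whose row `0`
holds exactly the pairs `{∞, 0}` and `{k, -k}`, `1 ≤ k ≤ m`. -/
structure IsPatternedRoomSquare (n : ℕ) (R : ZMod n → ZMod n → Finset (Option (ZMod n))) :
    Prop where
  room : IsRoomSquare n R
  cyclic : ∀ r s x y, x ≠ y → R r s = {x, y} → R (r + 1) (s + 1) = {shift x, shift y}
  pattern : {P : Finset (Option (ZMod n)) | P ≠ ∅ ∧ ∃ s, R 0 s = P} =
    {P | P = {none, some 0} ∨
      ∃ k : ℕ, 1 ≤ k ∧ k ≤ (n - 1) / 2 ∧ P = {some (k : ZMod n), some (-(k : ZMod n))}}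

section construct

variable {n : ℕ} [NeZero n] {T : Finset (ZMod n × ZMod n)}

theorem cover_xy (hT : StrongStarter n T) (w : ZMod n) (hw : w ≠ 0) :
    ∃ p ∈ T, p.1 = w ∨ p.2 = w := by
  classical
  have h1 : (T.image Prod.fst).card = T.card :=
    Finset.card_image_of_injOn fun p hp q hq e => hT.x_inj p hp q hq e
  have h2 : (T.image Prod.snd).card = T.card :=
    Finset.card_image_of_injOn fun p hp q hq e => hT.y_inj p hp q hq e
  have hdis : Disjoint (T.image Prod.fst) (T.image Prod.snd) := by
    rw [Finset.disjoint_left]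
    intro z hz hz'
    obtain ⟨p, hp, rfl⟩ := Finset.mem_image.1 hz
    obtain ⟨q, hq, e⟩ := Finset.mem_image.1 hz'
    exact hT.xy p hp q hq e.symm
  have hsub : T.image Prod.fst ∪ T.image Prod.snd ⊆ Finset.univ.erase 0 := by
    intro z hz
    rw [Finset.mem_erase]
    refine ⟨?_, Finset.mem_univ _⟩
    rcases Finset.mem_union.1 hz with hz | hz
    · obtain ⟨p, hp, rfl⟩ := Finset.mem_image.1 hz
      exact hT.x0 p hp
    · obtain ⟨p, hp, rfl⟩ := Finset.mem_image.1 hz
      exact hT.y0 p hp
  have heq : T.image Prod.fst ∪ T.image Prod.snd = Finset.univ.erase 0 := by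
    apply Finset.eq_of_subset_of_card_le hsub
    rw [Finset.card_union_of_disjoint hdis, h1, h2, Finset.card_erase_of_mem (Finset.mem_univ _),
      Finset.card_univ, ZMod.card]
    have := hT.card
    omega
  have hmem : w ∈ T.image Prod.fst ∪ T.image Prod.snd := by
    rw [heq, Finset.mem_erase]
    exact ⟨hw, Finset.mem_univ _⟩
  rcases Finset.mem_union.1 hmem with hz | hz
  · obtain ⟨p, hp, e⟩ := Finset.mem_image.1 hz
    exact ⟨p, hp, Or.inl e⟩
  · obtain ⟨p, hp, e⟩ := Finset.mem_image.1 hz
    exact ⟨p, hp, Or.inr e⟩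

omit [NeZero n] in
theorem x_ne_y (hT : StrongStarter n T) {p : ZMod n × ZMod n} (hp : p ∈ T) : p.1 ≠ p.2 :=
  hT.xy p hp p hp

theorem cover_d (hT : StrongStarter n T) (w : ZMod n) (hw : w ≠ 0) :
    ∃ p ∈ T, p.1 - p.2 = w ∨ p.2 - p.1 = w := by
  classical
  have h1 : (T.image fun p => p.1 - p.2).card = T.card :=
    Finset.card_image_of_injOn fun p hp q hq e => hT.d_inj p hp q hq e
  have h2 : (T.image fun p => p.2 - p.1).card = T.card :=
    Finset.card_image_of_injOn fun p hp q hq e => hT.d_inj p hp q hq (by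
      have e' : p.2 - p.1 = q.2 - q.1 := e
      linear_combination -e')
  have hdis : Disjoint (T.image fun p => p.1 - p.2) (T.image fun p => p.2 - p.1) := by
    rw [Finset.disjoint_left]
    intro z hz hz'
    obtain ⟨p, hp, rfl⟩ := Finset.mem_image.1 hz
    obtain ⟨q, hq, e⟩ := Finset.mem_image.1 hz'
    exact hT.dd p hp q hq e.symm
  have hsub : (T.image fun p => p.1 - p.2) ∪ (T.image fun p => p.2 - p.1) ⊆
      Finset.univ.erase 0 := by
    intro z hz
    rw [Finset.mem_erase]
    refine ⟨?_, Finset.mem_univ _⟩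
    rcases Finset.mem_union.1 hz with hz | hz
    · obtain ⟨p, hp, rfl⟩ := Finset.mem_image.1 hz
      exact sub_ne_zero.2 (x_ne_y hT hp)
    · obtain ⟨p, hp, rfl⟩ := Finset.mem_image.1 hz
      exact sub_ne_zero.2 (x_ne_y hT hp).symm
  have heq : (T.image fun p => p.1 - p.2) ∪ (T.image fun p => p.2 - p.1) =
      Finset.univ.erase 0 := by
    apply Finset.eq_of_subset_of_card_le hsub
    rw [Finset.card_union_of_disjoint hdis, h1, h2, Finset.card_erase_of_mem (Finset.mem_univ _),
      Finset.card_univ, ZMod.card]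
    have := hT.card
    omega
  have hmem : w ∈ (T.image fun p => p.1 - p.2) ∪ (T.image fun p => p.2 - p.1) := by
    rw [heq, Finset.mem_erase]
    exact ⟨hw, Finset.mem_univ _⟩
  rcases Finset.mem_union.1 hmem with hz | hz
  · obtain ⟨p, hp, e⟩ := Finset.mem_image.1 hz
    exact ⟨p, hp, Or.inl e⟩
  · obtain ⟨p, hp, e⟩ := Finset.mem_image.1 hz
    exact ⟨p, hp, Or.inr e⟩

/-- the pair of `T` that goes to the cell `(r, s)` -/
def At (T : Finset (ZMod n × ZMod n)) (r s : ZMod n) (p : ZMod n × ZMod n) : Prop :=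
  p ∈ T ∧ p.1 + p.2 = 2 * (r - s)

open Classical in
/-- the square obtained from a strong starter -/
noncomputable def sq (T : Finset (ZMod n × ZMod n)) (r s : ZMod n) : Finset (Option (ZMod n)) :=
  Finset.univ.filter fun z =>
    (r = s ∧ (z = none ∨ z = some s)) ∨ ∃ p, At T r s p ∧ (z = some (p.1 + s) ∨ z = some (p.2 + s))

theorem mem_sq {r s : ZMod n} {z : Option (ZMod n)} : z ∈ sq T r s ↔
    (r = s ∧ (z = none ∨ z = some s)) ∨
      ∃ p, At T r s p ∧ (z = some (p.1 + s) ∨ z = some (p.2 + s)) := by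
  unfold sq
  simp only [Finset.mem_filter, Finset.mem_univ, true_and]

omit [NeZero n] in
theorem at_unique (hT : StrongStarter n T) {r s : ZMod n} {p q : ZMod n × ZMod n}
    (hp : At T r s p) (hq : At T r s q) : p = q :=
  hT.s_inj p hp.1 q hq.1 (hp.2.trans hq.2.symm)

omit [NeZero n] in
theorem at_ne (hT : StrongStarter n T) {r s : ZMod n} {p : ZMod n × ZMod n}
    (hp : At T r s p) : r ≠ s := by
  intro e
  apply hT.s0 p hp.1
  rw [hp.2, e]; ring

theorem sq_diag (hT : StrongStarter n T) (r : ZMod n) : sq T r r = {none, some r} := by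
  ext z
  rw [mem_sq, Finset.mem_insert, Finset.mem_singleton]
  constructor
  · rintro (h | ⟨p, hp, -⟩)
    · exact h.2
    · exact absurd rfl (at_ne hT hp)
  · intro h
    exact Or.inl ⟨rfl, h⟩

theorem sq_at (hT : StrongStarter n T) {r s : ZMod n} {p : ZMod n × ZMod n}
    (hp : At T r s p) : sq T r s = {some (p.1 + s), some (p.2 + s)} := by
  ext z
  rw [mem_sq, Finset.mem_insert, Finset.mem_singleton]
  constructor
  · rintro (h | ⟨q, hq, h⟩)
    · exact absurd h.1 (at_ne hT hp)
    · rw [at_unique hT hq hp] at h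
      exact h
  · intro h
    exact Or.inr ⟨p, hp, h⟩

theorem sq_cases (hT : StrongStarter n T) (r s : ZMod n) :
    sq T r s = ∅ ∨ (r = s ∧ sq T r s = {none, some s}) ∨
      ∃ p, At T r s p ∧ sq T r s = {some (p.1 + s), some (p.2 + s)} := by
  by_cases hrs : r = s
  · subst hrs
    exact Or.inr (Or.inl ⟨rfl, sq_diag hT r⟩)
  by_cases hp : ∃ p, At T r s p
  · obtain ⟨p, hp⟩ := hp
    exact Or.inr (Or.inr ⟨p, hp, sq_at hT hp⟩)
  · left
    apply Finset.eq_empty_of_forall_notMem
    intro z hz
    rw [mem_sq] at hz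
    rcases hz with h | ⟨p, h, -⟩
    · exact hrs h.1
    · exact hp ⟨p, h⟩

/-- none in a cell -/
theorem none_mem {r s : ZMod n} : none ∈ sq T r s ↔ r = s := by
  rw [mem_sq]
  constructor
  · rintro (h | ⟨p, -, h | h⟩)
    · exact h.1
    · exact absurd h (by simp)
    · exact absurd h (by simp)
  · intro h
    exact Or.inl ⟨h, Or.inl rfl⟩

theorem some_mem {r s z : ZMod n} : some z ∈ sq T r s ↔
    (r = s ∧ z = s) ∨ ∃ p, At T r s p ∧ (z = p.1 + s ∨ z = p.2 + s) := by
  rw [mem_sq]
  simp only [reduceCtorEq, false_or, Option.some.injEq]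

theorem isRoom (hT : StrongStarter n T) (h : ZMod n) (hh : 2 * h = 1) :
    IsRoomSquare n (sq T) := by
  have cancel2 : ∀ a b : ZMod n, 2 * a = 2 * b → a = b := by
    intro a b e
    linear_combination h * e + (b - a) * hh
  -- differences determine the row
  have rowd : ∀ {r s z : ZMod n}, some z ∈ sq T r s → r ≠ s →
      ∃ p ∈ T, (p.1 + p.2 = 2 * (r - s)) ∧
        ((z = p.1 + s ∧ p.1 - p.2 = 2 * (z - r)) ∨ (z = p.2 + s ∧ p.2 - p.1 = 2 * (z - r))) := by
    intro r s z hz hrs
    rw [some_mem] at hz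
    rcases hz with hz | ⟨p, hp, hz⟩
    · exact absurd hz.1 hrs
    · refine ⟨p, hp.1, hp.2, ?_⟩
      rcases hz with hz | hz
      · left
        refine ⟨hz, ?_⟩
        rw [hz]; linear_combination -hp.2
      · right
        refine ⟨hz, ?_⟩
        rw [hz]; linear_combination -hp.2
  constructor
  · intro r s
    rcases sq_cases hT r s with h1 | ⟨-, h1⟩ | ⟨p, hp, h1⟩
    · exact Or.inl h1
    · right
      rw [h1]
      exact Finset.card_pair (by simp)
    · right
      rw [h1]
      apply Finset.card_pair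
      intro e
      have := Option.some_injective _ e
      exact x_ne_y hT hp.1 (add_right_cancel this)
  · intro r x
    rcases x with _ | z
    · exact ⟨r, none_mem.2 rfl, fun s hs => (none_mem.1 hs).symm⟩
    · by_cases hz : z = r
      · subst hz
        refine ⟨z, some_mem.2 (Or.inl ⟨rfl, rfl⟩), ?_⟩
        intro s hs
        by_contra hne
        obtain ⟨p, hp, -, h2 | h2⟩ := rowd hs (fun e => hne e.symm)
        · apply x_ne_y hT hp
          linear_combination h2.2
        · apply x_ne_y hT hp
          linear_combination -h2.2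
      · have hd : 2 * (z - r) ≠ 0 := by
          intro e
          apply hz
          have := cancel2 (z - r) 0 (by rw [e]; ring)
          linear_combination this
        have hnr : ∀ s, some z ∈ sq T r s → r ≠ s := by
          rintro s hs rfl
          rw [sq_diag hT, Finset.mem_insert, Finset.mem_singleton] at hs
          rcases hs with hs | hs
          · exact absurd hs (by simp)
          · exact hz (Option.some_injective _ hs)
        obtain ⟨p, hp, hpd | hpd⟩ := cover_d hT _ hd
        · refine ⟨z - p.1, some_mem.2 (Or.inr ⟨p, ⟨hp, ?_⟩, Or.inl (by ring)⟩), ?_⟩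
          · linear_combination -hpd
          · intro s hs
            obtain ⟨q, hq, -, h2 | h2⟩ := rowd hs (hnr s hs)
            · have := hT.d_inj q hq p hp (h2.2.trans hpd.symm)
              rw [this] at h2
              rw [h2.1]; ring
            · exact absurd (hpd.trans h2.2.symm) (hT.dd p hp q hq)
        · refine ⟨z - p.2, some_mem.2 (Or.inr ⟨p, ⟨hp, ?_⟩, Or.inr (by ring)⟩), ?_⟩
          · linear_combination -hpd
          · intro s hs
            obtain ⟨q, hq, -, h2 | h2⟩ := rowd hs (hnr s hs)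
            · exact absurd (h2.2.trans hpd.symm) (hT.dd q hq p hp)
            · have := hT.d_inj q hq p hp (by
                have e := h2.2.trans hpd.symm
                linear_combination -e)
              rw [this] at h2
              rw [h2.1]; ring
  · intro s x
    rcases x with _ | z
    · exact ⟨s, none_mem.2 rfl, fun r hr => none_mem.1 hr⟩
    · by_cases hz : z = s
      · subst hz
        refine ⟨z, some_mem.2 (Or.inl ⟨rfl, rfl⟩), ?_⟩
        intro r hr
        rcases some_mem.1 hr with h1 | ⟨p, hp, h1 | h1⟩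
        · exact h1.1
        · exact absurd (by linear_combination -h1) (hT.x0 p hp.1)
        · exact absurd (by linear_combination -h1) (hT.y0 p hp.1)
      · have hw : z - s ≠ 0 := sub_ne_zero.2 hz
        obtain ⟨p, hp, hpw⟩ := cover_xy hT _ hw
        refine ⟨s + h * (p.1 + p.2), some_mem.2 (Or.inr ⟨p, ⟨hp, ?_⟩, ?_⟩), ?_⟩
        · linear_combination -(p.1 + p.2) * hh
        · rcases hpw with hpw | hpw
          · left; rw [hpw]; ring
          · right; rw [hpw]; ring
        · intro r hr
          rcases some_mem.1 hr with h1 | ⟨q, hq, h1⟩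
          · exact absurd h1.2 hz
          · have hqp : q = p := by
              rcases h1 with h1 | h1
              · rcases hpw with hpw | hpw
                · exact hT.x_inj q hq.1 p hp (by rw [hpw, h1]; ring)
                · exact absurd (by rw [hpw, h1]; ring) (hT.xy q hq.1 p hp)
              · rcases hpw with hpw | hpw
                · exact absurd (by rw [hpw, h1]; ring) (hT.xy p hp q hq.1)
                · exact hT.y_inj q hq.1 p hp (by rw [hpw, h1]; ring)
            subst hqp
            have h2 := hq.2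
            linear_combination (s - r) * hh - h * h2
  · -- pairs
    have key : ∀ x : Option (ZMod n), ∀ z : ZMod n, x = none →
        ∃! c : ZMod n × ZMod n, sq T c.1 c.2 = {x, some z} := by
      rintro x z rfl
      refine ⟨(z, z), sq_diag hT z, ?_⟩
      rintro ⟨r, s⟩ hc
      have hc' : sq T r s = {none, some z} := hc
      have h1 : r = s := by
        rw [← none_mem (T := T), hc']
        exact Finset.mem_insert_self _ _
      subst h1
      have h2 : some z ∈ sq T r r := by
        rw [hc', Finset.mem_insert, Finset.mem_singleton]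
        exact Or.inr rfl
      rw [sq_diag hT, Finset.mem_insert, Finset.mem_singleton] at h2
      rcases h2 with h2 | h2
      · exact absurd h2 (by simp)
      · rw [Option.some_injective _ h2]
    have key2 : ∀ p ∈ T, ∀ u v : ZMod n, p.1 - p.2 = u - v →
        ∃! c : ZMod n × ZMod n, sq T c.1 c.2 = {some u, some v} := by
      intro p hp u v huv
      have hat : At T (u - p.1 + h * (p.1 + p.2)) (u - p.1) p := by
        refine ⟨hp, ?_⟩
        linear_combination -(p.1 + p.2) * hh
      have hval : sq T (u - p.1 + h * (p.1 + p.2)) (u - p.1) = {some u, some v} := by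
        rw [sq_at hT hat]
        congr 1
        · congr 1; ring
        · congr 2; linear_combination -huv
      refine ⟨(u - p.1 + h * (p.1 + p.2), u - p.1), hval, ?_⟩
      rintro ⟨r, s⟩ hc
      have hc' : sq T r s = {some u, some v} := hc
      have hrs : r ≠ s := by
        intro e
        have h1 : none ∈ sq T r s := none_mem.2 e
        rw [hc', Finset.mem_insert, Finset.mem_singleton] at h1
        rcases h1 with h1 | h1 <;> exact absurd h1 (by simp)
      have hu : some u ∈ sq T r s := by rw [hc']; exact Finset.mem_insert_self _ _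
      have hv : some v ∈ sq T r s := by
        rw [hc', Finset.mem_insert, Finset.mem_singleton]; exact Or.inr rfl
      have huv' : u ≠ v := by
        intro e
        apply x_ne_y hT hp
        rw [e] at huv
        linear_combination huv
      rcases some_mem.1 hu with h1 | ⟨q, hq, h1⟩
      · exact absurd h1.1 hrs
      rcases some_mem.1 hv with h2 | ⟨q', hq', h2⟩
      · exact absurd h2.1 hrs
      rw [at_unique hT hq' hq] at h2
      rcases h1 with h1 | h1
      · rcases h2 with h2 | h2
        · exact absurd (h1.trans h2.symm) huv'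
        · have hqp : q = p := hT.d_inj q hq.1 p hp (by rw [huv, h1, h2]; ring)
          subst hqp
          have h3 := hq.2
          have e1 : s = u - q.1 := by rw [h1]; ring
          refine Prod.ext ?_ e1
          change r = u - q.1 + h * (q.1 + q.2)
          rw [← e1]
          linear_combination (s - r) * hh - h * h3
      · rcases h2 with h2 | h2
        · exact absurd (by rw [huv, h1, h2]; ring) (hT.dd p hp q hq.1)
        · exact absurd (h1.trans h2.symm) huv'
    intro x y hxy
    rcases x with _ | u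
    · rcases y with _ | v
      · exact absurd rfl hxy
      · exact key none v rfl
    · rcases y with _ | v
      · rw [Finset.pair_comm]
        exact key none u rfl
      · have huv : u - v ≠ 0 := by
          intro e
          exact hxy (by rw [sub_eq_zero.1 e])
        obtain ⟨p, hp, h1 | h1⟩ := cover_d hT _ huv
        · exact key2 p hp u v h1
        · rw [Finset.pair_comm]
          exact key2 p hp v u (by linear_combination -h1)

theorem isPatterned (hT : StrongStarter n T) (h : ZMod n) (hh : 2 * h = 1) :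
    IsPatternedRoomSquare n (sq T) := by
  have hroom := isRoom hT h hh
  have cancel2 : ∀ a b : ZMod n, 2 * a = 2 * b → a = b := by
    intro a b e
    linear_combination h * e + (b - a) * hh
  refine ⟨hroom, ?_, ?_⟩
  · intro r s x y hxy hc
    have himg : sq T (r + 1) (s + 1) = (sq T r s).image shift := by
      rcases sq_cases hT r s with h1 | ⟨hrs, h1⟩ | ⟨p, hp, h1⟩
      · rw [hc] at h1
        exact absurd h1 (by simp)
      · rw [h1, hrs, sq_diag hT]
        simp [shift]
      · have hp' : At T (r + 1) (s + 1) p := ⟨hp.1, by rw [hp.2]; ring⟩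
        rw [h1, sq_at hT hp']
        simp [shift, add_assoc]
    rw [himg, hc]
    simp
  · have hcell : ∀ k : ZMod n, k ≠ 0 → ∃ s, sq T 0 s = {some k, some (-k)} := by
      intro k hk
      obtain ⟨s, hs, -⟩ := hroom.row 0 (some k)
      refine ⟨s, ?_⟩
      rcases some_mem.1 hs with h1 | ⟨p, hp, h1⟩
      · exact absurd (h1.2.trans h1.1.symm) hk
      · have h2 := hp.2
        rw [sq_at hT hp]
        rcases h1 with h1 | h1
        · rw [← h1]
          congr 3
          rw [h1]
          linear_combination h2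
        · rw [Finset.pair_comm, ← h1]
          congr 3
          rw [h1]
          linear_combination h2
    have hsmall : ∀ k : ZMod n, k ≠ 0 → ∃ j : ℕ, 1 ≤ j ∧ j ≤ (n - 1) / 2 ∧
        (k = (j : ZMod n) ∨ k = -(j : ZMod n)) := by
      intro k hk
      have hv : k.val < n := ZMod.val_lt k
      have hv0 : k.val ≠ 0 := fun e => hk ((ZMod.val_eq_zero k).1 e)
      have hcast : ((k.val : ℕ) : ZMod n) = k := ZMod.natCast_zmod_val k
      have hodd := hT.card
      by_cases hle : k.val ≤ (n - 1) / 2
      · exact ⟨k.val, by omega, hle, Or.inl hcast.symm⟩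
      · refine ⟨n - k.val, by omega, by omega, Or.inr ?_⟩
        rw [Nat.cast_sub (by omega), ZMod.natCast_self, hcast]
        ring
    ext P
    simp only [Set.mem_ofPred_eq]
    constructor
    · rintro ⟨hne, s, hs⟩
      rcases sq_cases hT 0 s with h1 | ⟨hrs, h1⟩ | ⟨p, hp, h1⟩
      · rw [hs] at h1
        exact absurd h1 hne
      · left
        rw [← hs, h1, ← hrs]
      · right
        have h2 := hp.2
        have hk : p.1 + s ≠ 0 := by
          intro e
          apply x_ne_y hT hp.1
          linear_combination 2 * e - h2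
        have e2 : p.2 + s = -(p.1 + s) := by linear_combination h2
        obtain ⟨j, hj1, hj2, hj | hj⟩ := hsmall _ hk
        · refine ⟨j, hj1, hj2, ?_⟩
          rw [← hs, h1, e2, hj]
        · refine ⟨j, hj1, hj2, ?_⟩
          rw [← hs, h1, e2, hj, neg_neg, Finset.pair_comm]
    · rintro (hP | ⟨k, hk1, hk2, hP⟩)
      · refine ⟨by rw [hP]; simp, 0, ?_⟩
        rw [sq_diag hT, hP]
      · refine ⟨by rw [hP]; simp, ?_⟩
        rw [hP]
        apply hcell
        intro e
        rw [ZMod.natCast_eq_zero_iff] at e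
        have := Nat.le_of_dvd (by omega) e
        omega

end construct

section necessary

variable {n : ℕ}

theorem cyclic_iter {R : ZMod n → ZMod n → Finset (Option (ZMod n))}
    (hR : IsPatternedRoomSquare n R) (j : ℕ) : ∀ r s x y, x ≠ y → R r s = {x, y} →
      R (r + j) (s + j) =
        {x.map (fun z : ZMod n => z + (j : ZMod n)), y.map (fun z : ZMod n => z + (j : ZMod n))} := by
  induction j with
  | zero =>
    intro r s x y _ hc
    have e : (fun z : ZMod n => z + ((0 : ℕ) : ZMod n)) = id := by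
      funext z; simp
    rw [e, Option.map_id]
    simpa using hc
  | succ j ih =>
    intro r s x y hxy hc
    have h1 := ih r s x y hxy hc
    have hne : x.map (fun z => z + (j : ZMod n)) ≠ y.map (fun z => z + (j : ZMod n)) := by
      intro e
      exact hxy (Option.map_injective (add_left_injective (j : ZMod n)) e)
    have h2 := hR.cyclic _ _ _ _ hne h1
    have e1 : r + (j : ZMod n) + 1 = r + ((j + 1 : ℕ) : ZMod n) := by push_cast; ring
    have e2 : s + (j : ZMod n) + 1 = s + ((j + 1 : ℕ) : ZMod n) := by push_cast; ring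
    rw [e1, e2] at h2
    rw [h2]
    unfold shift
    rw [Option.map_map, Option.map_map]
    have e3 : (fun z : ZMod n => z + 1) ∘ (fun z => z + (j : ZMod n)) =
        fun z => z + ((j + 1 : ℕ) : ZMod n) := by
      funext z
      simp only [Function.comp]
      push_cast; ring
    rw [e3]

/-- the adder: a necessary condition for a patterned Room square -/
theorem necessary [NeZero n] {R : ZMod n → ZMod n → Finset (Option (ZMod n))}
    (hR : IsPatternedRoomSquare n R) :
    ∃ c : ZMod n → ZMod n, (∀ k, c (-k) = c k) ∧ (∀ k l, c k = c l → l = k ∨ l = -k) ∧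
      Function.Injective (fun k => k - c k) := by
  classical
  choose c hc hcu using fun k : ZMod n => hR.room.row 0 (some k)
  -- the cell of `some k` in row 0
  have hcell : ∀ k : ZMod n, (k = 0 ∧ R 0 (c k) = {none, some 0}) ∨
      (k ≠ 0 ∧ R 0 (c k) = {some k, some (-k)}) := by
    intro k
    have h1 : R 0 (c k) ∈ {P : Finset (Option (ZMod n)) | P ≠ ∅ ∧ ∃ s, R 0 s = P} :=
      ⟨Finset.ne_empty_of_mem (hc k), c k, rfl⟩
    rw [hR.pattern] at h1
    have hk : some k ∈ R 0 (c k) := hc k
    rcases h1 with h1 | ⟨j, hj1, hj2, h1⟩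
    · left
      rw [h1, Finset.mem_insert, Finset.mem_singleton] at hk
      rcases hk with hk | hk
      · exact absurd hk (by simp)
      · exact ⟨Option.some_injective _ hk, h1⟩
    · right
      have hj0 : (j : ZMod n) ≠ 0 := by
        intro e
        rw [ZMod.natCast_eq_zero_iff] at e
        have := Nat.le_of_dvd (by omega) e
        omega
      rw [h1, Finset.mem_insert, Finset.mem_singleton] at hk
      rcases hk with hk | hk
      · have e := Option.some_injective _ hk
        rw [e]
        rw [e] at h1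
        exact ⟨hj0, h1⟩
      · have e := Option.some_injective _ hk
        rw [e]
        rw [e] at h1
        refine ⟨neg_ne_zero.2 hj0, ?_⟩
        rw [neg_neg, h1, Finset.pair_comm]
  refine ⟨c, ?_, ?_, ?_⟩
  · intro k
    rcases hcell k with ⟨h1, -⟩ | ⟨-, h1⟩
    · rw [h1, neg_zero]
    · symm
      apply hcu (-k)
      change some (-k) ∈ R 0 (c k)
      rw [h1, Finset.mem_insert, Finset.mem_singleton]
      exact Or.inr rfl
  · intro k l hkl
    have hl : some l ∈ R 0 (c l) := hc l
    rw [← hkl] at hl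
    rcases hcell k with ⟨h1, h2⟩ | ⟨-, h1⟩
    · rw [h2, Finset.mem_insert, Finset.mem_singleton] at hl
      rcases hl with hl | hl
      · exact absurd hl (by simp)
      · left; rw [h1]; exact Option.some_injective _ hl
    · rw [h1, Finset.mem_insert, Finset.mem_singleton] at hl
      rcases hl with hl | hl
      · exact Or.inl (Option.some_injective _ hl)
      · exact Or.inr (Option.some_injective _ hl)
  · -- column 0
    have hcol : ∀ k : ZMod n, some (k - c k) ∈ R (-c k) 0 := by
      intro k
      have hj : (((-c k).val : ℕ) : ZMod n) = -c k := ZMod.natCast_zmod_val _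
      rcases hcell k with ⟨h1, h2⟩ | ⟨h0, h1⟩
      · have h3 := cyclic_iter hR (-c k).val 0 (c k) none (some 0) (by simp) h2
        rw [hj, zero_add, add_neg_cancel] at h3
        rw [h3, Finset.mem_insert, Finset.mem_singleton]
        right
        rw [Option.map_some, h1]
        congr 1
        ring
      · have hne : (some k : Option (ZMod n)) ≠ some (-k) := by
          intro e
          have h2 : (R 0 (c k)).card = 2 := by
            rcases hR.room.cell 0 (c k) with h2 | h2
            · exact absurd h2 (Finset.ne_empty_of_mem (hc k))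
            · exact h2
          rw [h1, ← e] at h2
          simp at h2
        have h3 := cyclic_iter hR (-c k).val 0 (c k) (some k) (some (-k)) hne h1
        rw [hj, zero_add, add_neg_cancel] at h3
        rw [h3, Finset.mem_insert, Finset.mem_singleton]
        left
        rw [Option.map_some, sub_eq_add_neg]
    intro k l hkl
    have hkl' : k - c k = l - c l := hkl
    have h1 := hcol k
    have h2 := hcol l
    rw [← hkl'] at h2
    have h3 := (hR.room.col 0 (some (k - c k))).unique h1 h2
    have h4 : c k = c l := neg_injective h3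
    rw [h4] at hkl'
    exact sub_left_injective hkl'

theorem not_three : ¬ ∃ R, IsPatternedRoomSquare 3 R := by
  rintro ⟨R, hR⟩
  obtain ⟨c, h1, h2, h3⟩ := necessary hR
  have key : ∀ a0 a1 : ZMod 3, a0 ≠ a1 → (0 : ZMod 3) - a0 ≠ 1 - a1 → (0 : ZMod 3) - a0 ≠ 2 - a1 →
      False := by decide +kernel
  have e : c 2 = c 1 := h1 1
  refine key (c 0) (c 1) (fun h => ?_) (fun h => ?_) (fun h => ?_)
  · rcases h2 0 1 h with h | h <;> revert h <;> decide
  · exact absurd (h3 (a₁ := 0) (a₂ := 1) h) (by decide)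
  · refine absurd (h3 (a₁ := 0) (a₂ := 2) ?_) (by decide)
    change (0 : ZMod 3) - c 0 = 2 - c 2
    rw [e]; exact h

theorem not_five : ¬ ∃ R, IsPatternedRoomSquare 5 R := by
  rintro ⟨R, hR⟩
  obtain ⟨c, h1, h2, h3⟩ := necessary hR
  have e4 : c 4 = c 1 := h1 1
  have e3 : c 3 = c 2 := h1 2
  have key : ∀ a0 a1 : ZMod 5, a0 ≠ a1 →
      ((0 : ZMod 5) - a0 ≠ 1 - a1 ∧ (0 : ZMod 5) - a0 ≠ 4 - a1) → ∀ a2 : ZMod 5,
      a0 ≠ a2 → a1 ≠ a2 →
      ((0 : ZMod 5) - a0 ≠ 2 - a2 ∧ (0 : ZMod 5) - a0 ≠ 3 - a2 ∧ 1 - a1 ≠ 2 - a2 ∧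
        1 - a1 ≠ 3 - a2 ∧ 4 - a1 ≠ 2 - a2 ∧ 4 - a1 ≠ 3 - a2) → False := by decide +kernel
  have d : ∀ i j : ZMod 5, j ≠ i → j ≠ -i → c i ≠ c j := by
    intro i j hij hij' h
    rcases h2 i j h with h | h
    · exact hij h
    · exact hij' h
  have q : ∀ i j : ZMod 5, i ≠ j → i - c i ≠ j - c j := fun i j hij h => hij (h3 h)
  have q1 := q 0 1 (by decide)
  have q2 := q 0 4 (by decide)
  have q3 := q 0 2 (by decide)
  have q4 := q 0 3 (by decide)
  have q5 := q 1 2 (by decide)
  have q6 := q 1 3 (by decide)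
  have q7 := q 4 2 (by decide)
  have q8 := q 4 3 (by decide)
  rw [e4] at q2 q7 q8
  rw [e3] at q4 q6 q8
  exact key (c 0) (c 1) (d 0 1 (by decide) (by decide)) ⟨q1, q2⟩ (c 2)
    (d 0 2 (by decide) (by decide)) (d 1 2 (by decide) (by decide)) ⟨q3, q4, q5, q6, q7, q8⟩

set_option synthInstance.maxSize 100000 in
theorem not_nine : ¬ ∃ R, IsPatternedRoomSquare 9 R := by
  rintro ⟨R, hR⟩
  obtain ⟨c, h1, h2, h3⟩ := necessary hR
  have e8 : c 8 = c 1 := h1 1
  have e7 : c 7 = c 2 := h1 2
  have e6 : c 6 = c 3 := h1 3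
  have e5 : c 5 = c 4 := h1 4
  -- normalise `c 0 = 0`
  have key : ∀ a1 : ZMod 9, (0 ≠ a1 ∧ (0 : ZMod 9) ≠ 1 - a1 ∧ (0 : ZMod 9) ≠ 8 - a1) →
      ∀ a2 : ZMod 9, (0 ≠ a2 ∧ a1 ≠ a2 ∧ (0 : ZMod 9) ≠ 2 - a2 ∧ (0 : ZMod 9) ≠ 7 - a2 ∧
        1 - a1 ≠ 2 - a2 ∧ 1 - a1 ≠ 7 - a2 ∧ 8 - a1 ≠ 2 - a2 ∧ 8 - a1 ≠ 7 - a2) →
      ∀ a3 : ZMod 9, (0 ≠ a3 ∧ a1 ≠ a3 ∧ a2 ≠ a3 ∧ (0 : ZMod 9) ≠ 3 - a3 ∧
        (0 : ZMod 9) ≠ 6 - a3 ∧ 1 - a1 ≠ 3 - a3 ∧ 1 - a1 ≠ 6 - a3 ∧ 8 - a1 ≠ 3 - a3 ∧
        8 - a1 ≠ 6 - a3 ∧ 2 - a2 ≠ 3 - a3 ∧ 2 - a2 ≠ 6 - a3 ∧ 7 - a2 ≠ 3 - a3 ∧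
        7 - a2 ≠ 6 - a3) →
      ∀ a4 : ZMod 9, ¬ (0 ≠ a4 ∧ a1 ≠ a4 ∧ a2 ≠ a4 ∧ a3 ≠ a4 ∧ (0 : ZMod 9) ≠ 4 - a4 ∧
        (0 : ZMod 9) ≠ 5 - a4 ∧ 1 - a1 ≠ 4 - a4 ∧ 1 - a1 ≠ 5 - a4 ∧ 8 - a1 ≠ 4 - a4 ∧
        8 - a1 ≠ 5 - a4 ∧ 2 - a2 ≠ 4 - a4 ∧ 2 - a2 ≠ 5 - a4 ∧ 7 - a2 ≠ 4 - a4 ∧
        7 - a2 ≠ 5 - a4 ∧ 3 - a3 ≠ 4 - a4 ∧ 3 - a3 ≠ 5 - a4 ∧ 6 - a3 ≠ 4 - a4 ∧
        6 - a3 ≠ 5 - a4) := by decide +kernel
  have d0 : ∀ j : ZMod 9, j ≠ 0 → 0 ≠ c j - c 0 := by
    intro j hj h
    rcases h2 0 j (by linear_combination h) with h | h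
    · exact hj h
    · exact hj (by rw [h]; decide)
  have d : ∀ i j : ZMod 9, j ≠ i → j ≠ -i → c i - c 0 ≠ c j - c 0 := by
    intro i j hij hij' h
    rcases h2 i j (by linear_combination h) with h | h
    · exact hij h
    · exact hij' h
  have q0 : ∀ j : ZMod 9, j ≠ 0 → (0 : ZMod 9) ≠ j - (c j - c 0) := by
    intro j hj h
    exact hj (h3 (by
      change j - c j = 0 - c 0
      linear_combination -h))
  have q : ∀ i j : ZMod 9, i ≠ j → i - (c i - c 0) ≠ j - (c j - c 0) := by
    intro i j hij h
    exact hij (h3 (by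
      change i - c i = j - c j
      linear_combination h))
  have a8 := q0 8 (by decide)
  have a7 := q0 7 (by decide)
  have a6 := q0 6 (by decide)
  have a5 := q0 5 (by decide)
  rw [e8] at a8
  rw [e7] at a7
  rw [e6] at a6
  rw [e5] at a5
  have b17 := q 1 7 (by decide)
  have b82 := q 8 2 (by decide)
  have b87 := q 8 7 (by decide)
  rw [e7] at b17 b87
  rw [e8] at b82 b87
  have b16 := q 1 6 (by decide)
  have b83 := q 8 3 (by decide)
  have b86 := q 8 6 (by decide)
  have b26 := q 2 6 (by decide)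
  have b73 := q 7 3 (by decide)
  have b76 := q 7 6 (by decide)
  rw [e6] at b16 b86 b26 b76
  rw [e8] at b83 b86
  rw [e7] at b73 b76
  have b15 := q 1 5 (by decide)
  have b84 := q 8 4 (by decide)
  have b85 := q 8 5 (by decide)
  have b25 := q 2 5 (by decide)
  have b74 := q 7 4 (by decide)
  have b75 := q 7 5 (by decide)
  have b35 := q 3 5 (by decide)
  have b64 := q 6 4 (by decide)
  have b65 := q 6 5 (by decide)
  rw [e5] at b15 b85 b25 b75 b35 b65
  rw [e8] at b84 b85
  rw [e7] at b74 b75
  rw [e6] at b64 b65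
  exact key (c 1 - c 0) ⟨d0 1 (by decide), q0 1 (by decide), a8⟩
    (c 2 - c 0) ⟨d0 2 (by decide), d 1 2 (by decide) (by decide), q0 2 (by decide), a7,
      q 1 2 (by decide), b17, b82, b87⟩
    (c 3 - c 0) ⟨d0 3 (by decide), d 1 3 (by decide) (by decide), d 2 3 (by decide) (by decide),
      q0 3 (by decide), a6, q 1 3 (by decide), b16, b83, b86, q 2 3 (by decide), b26, b73, b76⟩
    (c 4 - c 0) ⟨d0 4 (by decide), d 1 4 (by decide) (by decide), d 2 4 (by decide) (by decide),
      d 3 4 (by decide) (by decide), q0 4 (by decide), a5, q 1 4 (by decide), b15, b84, b85,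
      q 2 4 (by decide), b25, b74, b75, q 3 4 (by decide), b35, b64, b65⟩

end necessary

/-- The odd positive integers `n` for which there is no patterned Room square of side `n` are
exactly `3`, `5` and `9`. -/
theorem result :
    {n : ℕ | Odd n ∧ ¬ ∃ R : ZMod n → ZMod n → Finset (Option (ZMod n)),
      IsPatternedRoomSquare n R} = {3, 5, 9} := by
  ext n
  simp only [Set.mem_ofPred_eq, Set.mem_insert_iff, Set.mem_singleton_iff]
  constructor
  · rintro ⟨hodd, hno⟩
    by_contra hcon
    push Not at hcon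
    have hn : n % 2 = 1 := Nat.odd_iff.1 hodd
    obtain ⟨T, hT⟩ := exists_starter n hn hcon.1 hcon.2.1 hcon.2.2
    have hne : NeZero n := ⟨by omega⟩
    have hh : (2 : ZMod n) * (((n + 1) / 2 : ℕ) : ZMod n) = 1 := by
      have e : 2 * ((n + 1) / 2) = n + 1 := by omega
      have e2 : ((2 * ((n + 1) / 2) : ℕ) : ZMod n) = ((n + 1 : ℕ) : ZMod n) := by rw [e]
      push_cast at e2
      rw [ZMod.natCast_self, zero_add] at e2
      exact e2
    exact hno ⟨sq T, isPatterned hT _ hh⟩
  · rintro (h | h | h)
    · subst h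
      exact ⟨by decide, not_three⟩
    · subst h
      exact ⟨by decide, not_five⟩
    · subst h
      exact ⟨by decide, not_nine⟩

end Pool.Agent.Results.MP_b14753_co.Patterned
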